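import Pool.Agent.R39.PathAut.Main

/-!
For every `n ≥ 5` every automorphism of the path graph of the complete graph `K_n` is induced by
a permutation of the vertices of `K_n`.
-/

namespace Pool.Agent.Results.MP_89fae5_co.AutPathGraph

open Finset

/-- `E` is the edge set of a spanning path of the complete graph on `Fin n`: for some ordering
`σ 0, σ 1, …, σ (n-1)` of the vertices, `E` consists of the pairs `{σ i, σ (i+1)}`. -/
def IsSpanningPath {n : ℕ} (E : Finset (Sym2 (Fin n))) : Prop :=
  ∃ σ : Equiv.Perm (Fin n), ∀ e : Sym2 (Fin n), e ∈ E ↔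
    ∃ (i : ℕ) (h : i + 1 < n), e = s(σ ⟨i, Nat.lt_of_succ_lt h⟩, σ ⟨i + 1, h⟩)

/-- The spanning paths of `K_n`, identified with their edge sets. -/
abbrev SpanningPath (n : ℕ) : Type := {E : Finset (Sym2 (Fin n)) // IsSpanningPath E}

/-- The path graph `G_n`: two spanning paths are adjacent when they share exactly `n - 2`
edges. -/
def pathGraph (n : ℕ) : SimpleGraph (SpanningPath n) where
  Adj A B := A ≠ B ∧ (A.1 ∩ B.1).card = n - 2
  symm := ⟨by
    rintro A B ⟨h1, h2⟩
    exact ⟨h1.symm, by rw [inter_comm]; exact h2⟩⟩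
  loopless := ⟨by
    rintro A ⟨h, _⟩
    exact h rfl⟩

lemma isSpanningPath_image {n : ℕ} (σ : Equiv.Perm (Fin n)) {E : Finset (Sym2 (Fin n))}
    (h : IsSpanningPath E) : IsSpanningPath (E.image (Sym2.map σ)) := by
  obtain ⟨τ, hτ⟩ := h
  refine ⟨σ * τ, ?_⟩
  intro e
  rw [mem_image]
  constructor
  · rintro ⟨f, hf, rfl⟩
    obtain ⟨i, hi, rfl⟩ := (hτ f).1 hf
    exact ⟨i, hi, rfl⟩
  · rintro ⟨i, hi, rfl⟩
    exact ⟨_, (hτ _).2 ⟨i, hi, rfl⟩, rfl⟩

/-- The map on spanning paths induced by a permutation of `[n]`. -/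
def permPath {n : ℕ} (σ : Equiv.Perm (Fin n)) (A : SpanningPath n) : SpanningPath n :=
  ⟨A.1.image (Sym2.map σ), isSpanningPath_image σ A.2⟩

lemma permPath_mul {n : ℕ} (σ τ : Equiv.Perm (Fin n)) (A : SpanningPath n) :
    permPath (σ * τ) A = permPath σ (permPath τ A) :=
  Subtype.ext (Pool.Agent.R39.PathAut.act_mul σ τ A.1)

lemma permPath_one {n : ℕ} (A : SpanningPath n) : permPath 1 A = A :=
  Subtype.ext (Pool.Agent.R39.PathAut.act_one A.1)

/-- The homomorphism from the permutations of `[n]` to the automorphisms of `G_n`. -/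
def permAut (n : ℕ) : Equiv.Perm (Fin n) →* (pathGraph n ≃g pathGraph n) where
  toFun σ :=
    { toFun := permPath σ
      invFun := permPath σ⁻¹
      left_inv := fun A => by rw [← permPath_mul, inv_mul_cancel, permPath_one]
      right_inv := fun A => by rw [← permPath_mul, mul_inv_cancel, permPath_one]
      map_rel_iff' := by
        intro A B
        show (permPath σ A ≠ permPath σ B ∧
          (A.1.image (Sym2.map σ) ∩ B.1.image (Sym2.map σ)).card = n - 2) ↔
          A ≠ B ∧ (A.1 ∩ B.1).card = n - 2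
        have h1 : Function.Injective (Sym2.map σ) := Sym2.map.injective σ.injective
        rw [← image_inter _ _ h1, card_image_of_injective _ h1]
        have h2 : permPath σ A ≠ permPath σ B ↔ A ≠ B := by
          constructor
          · rintro h rfl
            exact h rfl
          · intro h h3
            apply h
            have h4 : A.1.image (Sym2.map σ) = B.1.image (Sym2.map σ) := congrArg Subtype.val h3
            exact Subtype.ext (image_injective h1 h4)
        rw [h2] }
  map_one' := by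
    apply RelIso.ext
    intro A
    exact permPath_one A
  map_mul' σ τ := by
    apply RelIso.ext
    intro A
    exact permPath_mul σ τ A

section bridge

open Pool.Agent.R39.PathAut

variable {n : ℕ} [NeZero n]

/-- positions -/
def zf (n : ℕ) [NeZero n] : ZMod n ≃ Fin n where
  toFun j := ⟨j.val, ZMod.val_lt j⟩
  invFun i := (i.1 : ZMod n)
  left_inv j := ZMod.natCast_zmod_val j
  right_inv i := Fin.ext (ZMod.val_natCast_of_lt i.2)

lemma isSpanningPath_iff (hn : 5 ≤ n) (E : Finset (Sym2 (Fin n))) :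
    IsSpanningPath E ↔ IsP n (Fin n) E := by
  have hval : ∀ j : ZMod n, j ≠ -1 → j.val + 1 < n ∧ (j + 1).val = j.val + 1 := by
    intro j hj
    have h1 : (j + 1).val = j.val + 1 := by
      apply val_succ hn
      intro h
      apply hj
      linear_combination h
    exact ⟨by rw [← h1]; exact ZMod.val_lt _, h1⟩
  have hcast : ∀ i : ℕ, i + 1 < n → (i : ZMod n) ≠ -1 := by
    intro i hi h
    apply small_ne (n := n) (m := i + 1) (by omega) hi
    push_cast
    rw [h]
    ring
  constructor
  · rintro ⟨σ, hσ⟩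
    refine ⟨(zf n).trans σ, -1, ?_⟩
    ext e
    rw [hσ, mem_Q]
    constructor
    · rintro ⟨i, hi, rfl⟩
      refine ⟨(i : ZMod n), hcast i hi, ?_⟩
      show s(σ ⟨(i : ZMod n).val, _⟩, σ ⟨((i : ZMod n) + 1).val, _⟩) = _
      have h1 : (i : ZMod n).val = i := ZMod.val_natCast_of_lt (by omega)
      have h2 : ((i : ZMod n) + 1).val = i + 1 := by
        rw [(hval _ (hcast i hi)).2, h1]
      congr 2
      · congr 1
      · congr 1
    · rintro ⟨j, hj, rfl⟩
      refine ⟨j.val, (hval j hj).1, ?_⟩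
      show s(σ ⟨j.val, _⟩, σ ⟨(j + 1).val, _⟩) = _
      congr 2
      congr 1
      exact (hval j hj).2
  · rintro ⟨x, k, rfl⟩
    have e0 : Q x k = Q ((Equiv.addLeft (k + 1)).trans x) (-1) := by
      rw [Q_trans_add]
      congr 1
      ring
    rw [e0]
    generalize (Equiv.addLeft (k + 1)).trans x = y
    refine ⟨(zf n).symm.trans y, ?_⟩
    intro e
    rw [mem_Q]
    constructor
    · rintro ⟨j, hj, rfl⟩
      refine ⟨j.val, (hval j hj).1, ?_⟩
      show s(y j, y (j + 1)) = s(y ((j.val : ℕ) : ZMod n), y ((j.val + 1 : ℕ) : ZMod n))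
      push_cast
      rw [ZMod.natCast_zmod_val]
    · rintro ⟨i, hi, rfl⟩
      refine ⟨(i : ZMod n), hcast i hi, ?_⟩
      show s(y (i : ZMod n), y ((i : ZMod n) + 1)) = s(y (i : ZMod n), y ((i + 1 : ℕ) : ZMod n))
      push_cast
      rfl

lemma adj_iff (hn : 5 ≤ n) (A B : SpanningPath n) : (pathGraph n).Adj A B ↔ Ad n A.1 B.1 := by
  constructor
  · rintro ⟨_, h⟩
    exact h
  · intro h
    refine ⟨?_, h⟩
    rintro rfl
    exact h.ne hn (((isSpanningPath_iff hn _).1 A.2).card hn) rfl

open Classical in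
/-- an automorphism as a map on edge sets -/
noncomputable def lift (φ : SpanningPath n → SpanningPath n) (A : Finset (Sym2 (Fin n))) :
    Finset (Sym2 (Fin n)) :=
  if h : IsSpanningPath A then (φ ⟨A, h⟩).1 else A

omit [NeZero n] in
lemma lift_eq (φ : SpanningPath n → SpanningPath n) {A : Finset (Sym2 (Fin n))}
    (h : IsSpanningPath A) : lift φ A = (φ ⟨A, h⟩).1 := by
  unfold lift
  rw [dif_pos h]

lemma auto_lift (hn : 5 ≤ n) (φ : pathGraph n ≃g pathGraph n) :
    Auto n (Fin n) (lift φ) (lift φ.symm) := by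
  have hS : ∀ {A}, IsP n (Fin n) A → IsSpanningPath A := fun h => (isSpanningPath_iff hn _).2 h
  refine ⟨?_, ?_, ?_, ?_, ?_, ?_⟩
  · intro A hA
    rw [lift_eq _ (hS hA)]
    exact (isSpanningPath_iff hn _).1 (φ ⟨A, hS hA⟩).2
  · intro A hA
    rw [lift_eq _ (hS hA)]
    exact (isSpanningPath_iff hn _).1 (φ.symm ⟨A, hS hA⟩).2
  · intro A hA
    rw [lift_eq φ (hS hA), lift_eq φ.symm (φ ⟨A, hS hA⟩).2]
    show (φ.symm (φ ⟨A, hS hA⟩)).1 = A
    rw [RelIso.symm_apply_apply]
  · intro A hA
    rw [lift_eq φ.symm (hS hA), lift_eq φ (φ.symm ⟨A, hS hA⟩).2]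
    show (φ (φ.symm ⟨A, hS hA⟩)).1 = A
    rw [RelIso.apply_symm_apply]
  · intro A B hA hB h
    rw [lift_eq _ (hS hA), lift_eq _ (hS hB), ← adj_iff hn, φ.map_rel_iff, adj_iff hn]
    exact h
  · intro A B hA hB h
    rw [lift_eq _ (hS hA), lift_eq _ (hS hB), ← adj_iff hn, φ.symm.map_rel_iff, adj_iff hn]
    exact h

end bridge

/-- For every `n ≥ 5` the homomorphism from the symmetric group on `[n]` to the automorphism
group of the path graph `G_n` is bijective: every automorphism of `G_n` is induced by a unique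
permutation of `[n]`. -/
theorem result : ∀ n : ℕ, 5 ≤ n → Function.Bijective (permAut n) := by
  intro n hn
  have : NeZero n := ⟨by omega⟩
  constructor
  · rw [injective_iff_map_eq_one]
    intro σ hσ
    apply Pool.Agent.R39.PathAut.act_inj hn (zf n) σ
    intro A hA
    have h1 := congrArg (fun φ : pathGraph n ≃g pathGraph n =>
      (φ ⟨A, (isSpanningPath_iff hn A).2 hA⟩).1) hσ
    exact h1
  · intro φ
    obtain ⟨σ, hσ⟩ := (auto_lift hn φ).induced hn (zf n)
    refine ⟨σ, ?_⟩
    apply RelIso.ext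
    intro A
    apply Subtype.ext
    have h1 := hσ A.1 ((isSpanningPath_iff hn _).1 A.2)
    rw [lift_eq _ A.2] at h1
    exact h1.symm

end Pool.Agent.Results.MP_89fae5_co.AutPathGraph
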